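import Pool.Agent.W477.ER.Stm

set_option autoImplicit false

/-!
The layering inequality for Hilbert functions of point sets (project ER, parts PT and HhBasic).
-/

namespace Pool.Agent.W376.ER

open Finset Pool.Agent.W477.ER
open scoped LinearAlgebra.Projectivization

section LinAlg

variable {K U X' Y' : Type} [Field K] [AddCommGroup U] [Module K U] [AddCommGroup X'] [Module K X']
  [AddCommGroup Y'] [Module K Y'] [FiniteDimensional K U] [FiniteDimensional K X']


omit [FiniteDimensional K X'] in
lemma finrank_map_add (G : Submodule K U) (T : U →ₗ[K] X') :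
    Module.finrank K (G.map T) + Module.finrank K (G ⊓ LinearMap.ker T : Submodule K U) =
      Module.finrank K G := by
  have h := LinearMap.finrank_range_add_finrank_ker (T.domRestrict G)
  rw [LinearMap.range_domRestrict, LinearMap.ker_domRestrict] at h
  have h2 : Module.finrank K ((LinearMap.ker T).comap G.subtype) =
      Module.finrank K (G ⊓ LinearMap.ker T : Submodule K U) := by
    rw [← Submodule.map_comap_subtype]
    exact (Submodule.finrank_map_subtype_eq G _).symm
  rw [← h2]
  exact h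

lemma dimstep (G : Submodule K U) (T : U →ₗ[K] X') (ρ : U →ₗ[K] Y') (A : Submodule K X')
    (h : ∀ g ∈ G, T g ∈ A → ρ g = 0) :
    Module.finrank K A + Module.finrank K (G.map ρ) ≤
      Module.finrank K (A ⊔ G.map T : Submodule K X') := by
  have h1 := Submodule.finrank_sup_add_finrank_inf_eq A (G.map T)
  have h2 := finrank_map_add G T
  have h3 := finrank_map_add G ρ
  have h4 := finrank_map_add (G ⊓ A.comap T) T
  have h5 : (G ⊓ A.comap T).map T = A ⊓ G.map T := by
    ext z
    simp only [Submodule.mem_map, Submodule.mem_inf, Submodule.mem_comap]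
    constructor
    · rintro ⟨g, ⟨hg, hA⟩, rfl⟩
      exact ⟨hA, g, hg, rfl⟩
    · rintro ⟨hA, g, hg, rfl⟩
      exact ⟨g, ⟨hg, hA⟩, rfl⟩
  have h6 : (G ⊓ A.comap T) ⊓ LinearMap.ker T = G ⊓ LinearMap.ker T := by
    ext z
    simp only [Submodule.mem_inf, Submodule.mem_comap, LinearMap.mem_ker]
    constructor
    · rintro ⟨⟨h1, _⟩, h3⟩
      exact ⟨h1, h3⟩
    · rintro ⟨h1, h3⟩
      exact ⟨⟨h1, by rw [h3]; exact A.zero_mem⟩, h3⟩
  have h7 : Module.finrank K (G ⊓ A.comap T : Submodule K U) ≤
      Module.finrank K (G ⊓ LinearMap.ker ρ : Submodule K U) := by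
    apply Submodule.finrank_mono
    rintro g ⟨hg, hA⟩
    exact ⟨hg, h g hg hA⟩
  rw [h5, h6] at h4
  omega

end LinAlg

section Geo

variable {K : Type} [Field K] {V : Type} [AddCommGroup V] [Module K V]

lemma Sd_homog {e : ℕ} {g : V → K} (hg : g ∈ Sd K V e) (c : K) (v : V) :
    g (c • v) = c ^ e * g v := by
  unfold Sd at hg
  induction hg using Submodule.span_induction with
  | mem x hx =>
    obtain ⟨l, rfl⟩ := hx
    simp [Finset.prod_mul_distrib]
  | zero => simp
  | add x y _ _ hx hy =>
    simp only [Pi.add_apply, hx, hy]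
    ring
  | smul a x _ hx =>
    simp only [Pi.smul_apply, smul_eq_mul, hx]
    ring

lemma Sd_mul {e : ℕ} {f : V → K} (hf : f ∈ Sd K V e) (l : Module.Dual K V) :
    (fun v => l v * f v) ∈ Sd K V (e + 1) := by
  unfold Sd at hf
  induction hf using Submodule.span_induction with
  | mem x hx =>
    obtain ⟨l', rfl⟩ := hx
    apply Submodule.subset_span
    refine ⟨Fin.cons l l', ?_⟩
    funext v
    simp [Fin.prod_univ_succ]
  | zero =>
    have : (fun v => l v * (0 : V → K) v) = 0 := by
      funext v; simp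
    rw [this]
    exact Submodule.zero_mem _
  | add x y _ _ hx hy =>
    have : (fun v => l v * (x + y) v) = (fun v => l v * x v) + fun v => l v * y v := by
      funext v
      simp [mul_add]
    rw [this]
    exact Submodule.add_mem _ hx hy
  | smul a x _ hx =>
    have : (fun v => l v * (a • x) v) = a • fun v => l v * x v := by
      funext v
      simp only [Pi.smul_apply, smul_eq_mul]
      ring
    rw [this]
    exact Submodule.smul_mem _ _ hx

lemma Sd_pow {e : ℕ} {f : V → K} (hf : f ∈ Sd K V e) (l : Module.Dual K V) (k : ℕ) :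
    (fun v => l v ^ k * f v) ∈ Sd K V (k + e) := by
  induction k with
  | zero => simpa using hf
  | succ k ih =>
    have h := Sd_mul ih l
    have h2 : (fun v => l v * (l v ^ k * f v)) = fun v => l v ^ (k + 1) * f v := by
      funext v
      ring
    rw [h2] at h
    have h3 : k + e + 1 = k + 1 + e := by ring
    rw [h3] at h
    exact h

lemma Sd_pull {W : Type} [AddCommGroup W] [Module K W] (π : V →ₗ[K] W) {e : ℕ} {g : W → K}
    (hg : g ∈ Sd K W e) : (fun v => g (π v)) ∈ Sd K V e := by
  unfold Sd at hg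
  induction hg using Submodule.span_induction with
  | mem x hx =>
    obtain ⟨l', rfl⟩ := hx
    apply Submodule.subset_span
    exact ⟨fun i => (l' i).comp π, rfl⟩
  | zero => exact Submodule.zero_mem _
  | add x y _ _ hx hy => exact Submodule.add_mem _ hx hy
  | smul a x _ hx => exact Submodule.smul_mem _ a hx

theorem hhBasic : HhBasic := by
  intro K _ _ V _ _ _ d X Y hXY
  have h : (Sd K V d).map (resP K V X) = ((Sd K V d).map (resP K V Y)).map
      (LinearMap.funLeft K K (fun x : X => (⟨x.1, hXY x.2⟩ : Y))) := by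
    rw [← Submodule.map_comp]
    rfl
  unfold hh
  rw [h]
  exact Submodule.finrank_map_le _ _

/-- the map `g ↦ l ^ k * (g ∘ π)` restricted to the points of `X` -/
noncomputable def TT {W : Type} [AddCommGroup W] [Module K W] (π : V →ₗ[K] W)
    (l : Module.Dual K V) (X : Finset (ℙ K V)) (k : ℕ) : (W → K) →ₗ[K] (X → K) where
  toFun g := fun x => l x.1.rep ^ k * g (π x.1.rep)
  map_add' g g' := by
    funext x
    simp [mul_add]
  map_smul' c g := by
    funext x
    simp only [Pi.smul_apply, smul_eq_mul, RingHom.id_apply]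
    ring

/-- the filtration -/
noncomputable def AA {W : Type} [AddCommGroup W] [Module K W] (π : V →ₗ[K] W)
    (l : Module.Dual K V) (X : Finset (ℙ K V)) (d : ℕ) : ℕ → Submodule K (X → K)
  | 0 => ⊥
  | k + 1 => AA π l X d k ⊔ (Sd K W (d - k)).map (TT π l X k)

lemma AA_le {W : Type} [AddCommGroup W] [Module K W] (π : V →ₗ[K] W)
    (l : Module.Dual K V) (X : Finset (ℙ K V)) (d k : ℕ) (hk : k ≤ d + 1) :
    AA π l X d k ≤ (Sd K V d).map (resP K V X) := by
  induction k with
  | zero => exact bot_le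
  | succ k ih =>
    refine sup_le (ih (by omega)) ?_
    rintro _ ⟨g, hg, rfl⟩
    have h := Sd_pow (Sd_pull π hg) l k
    have h2 : k + (d - k) = d := by omega
    rw [h2] at h
    exact ⟨_, h, rfl⟩

open Polynomial in
lemma AA_poly {W : Type} [AddCommGroup W] [Module K W] (π : V →ₗ[K] W)
    (l : Module.Dual K V) (X : Finset (ℙ K V)) (d k : ℕ) (hk : k ≤ d + 1) (w0 : W) :
    ∀ h ∈ AA π l X d k, ∃ r : K[X], r.degree < k ∧ ∀ x : X, ∀ c : K, c ≠ 0 →
      π x.1.rep = c • w0 → h x = c ^ d * r.eval (l x.1.rep / c) := by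
  induction k with
  | zero =>
    intro h hh
    have h0 : h = 0 := by simpa [AA] using hh
    refine ⟨0, by simp, ?_⟩
    intro x c _ _
    simp [h0]
  | succ k ih =>
    intro h hh
    obtain ⟨h1, hh1, _, ⟨g, hg, rfl⟩, rfl⟩ := Submodule.mem_sup.1 hh
    obtain ⟨r, hr, hr2⟩ := ih (by omega) h1 hh1
    refine ⟨r + C (g w0) * Polynomial.X ^ k, ?_, ?_⟩
    · refine lt_of_le_of_lt (degree_add_le _ _) (max_lt ?_ ?_)
      · refine lt_trans hr ?_
        exact_mod_cast Nat.lt_succ_self k
      · refine lt_of_le_of_lt (degree_C_mul_X_pow_le _ _) ?_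
        exact_mod_cast Nat.lt_succ_self k
    · intro x c hc hx
      rw [Pi.add_apply, hr2 x c hc hx]
      have e1 : TT π l X k g x = l x.1.rep ^ k * g (π x.1.rep) := rfl
      rw [e1, hx, Sd_homog hg]
      simp only [eval_add, eval_mul, eval_C, eval_pow, eval_X]
      have e2 : c ^ d = c ^ k * c ^ (d - k) := by
        rw [← pow_add]
        congr 1
        omega
      rw [mul_add, e2, div_pow]
      field_simp


lemma over_coord {P : ℙ K V} {x : ℙ K V} {y : ℙ K (V ⧸ P.submodule)} (h : Over P x y) :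
    ∃ c : K, c ≠ 0 ∧ P.submodule.mkQ x.rep = c • y.rep := by
  obtain ⟨h0, rfl⟩ := h
  obtain ⟨a, ha⟩ := Projectivization.exists_smul_eq_mk_rep K (P.submodule.mkQ x.rep) h0
  refine ⟨((a⁻¹ : Kˣ) : K), Units.ne_zero _, ?_⟩
  rw [← ha]
  exact (inv_smul_smul a (P.submodule.mkQ x.rep)).symm

lemma same_slope {P : ℙ K V} {x x' : ℙ K V} {w0 : V ⧸ P.submodule} {l : Module.Dual K V}
    (hl : l P.rep = 1) {c c' : K} (hc : c ≠ 0) (hc' : c' ≠ 0)
    (hx : P.submodule.mkQ x.rep = c • w0) (hx' : P.submodule.mkQ x'.rep = c' • w0)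
    (hs : l x.rep / c = l x'.rep / c') : x = x' := by
  have h1 : P.submodule.mkQ (c⁻¹ • x.rep - c'⁻¹ • x'.rep) = 0 := by
    rw [map_sub, map_smul, map_smul, hx, hx', smul_smul, smul_smul, inv_mul_cancel₀ hc,
      inv_mul_cancel₀ hc', sub_self]
  have h2 : c⁻¹ • x.rep - c'⁻¹ • x'.rep ∈ P.submodule := by
    have h3 : c⁻¹ • x.rep - c'⁻¹ • x'.rep ∈ LinearMap.ker P.submodule.mkQ := h1
    rwa [Submodule.ker_mkQ] at h3
  rw [Projectivization.submodule_eq, Submodule.mem_span_singleton] at h2
  obtain ⟨a, ha⟩ := h2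
  have h3 := congrArg l ha
  rw [map_smul, hl, map_sub, map_smul, map_smul] at h3
  simp only [smul_eq_mul, mul_one] at h3
  have h4 : a = 0 := by
    rw [h3]
    rw [div_eq_inv_mul, div_eq_inv_mul] at hs
    rw [hs, sub_self]
  rw [h4, zero_smul] at ha
  have h5 : c⁻¹ • x.rep = c'⁻¹ • x'.rep := (sub_eq_zero.1 ha.symm)
  rw [← x.mk_rep, ← x'.mk_rep, Projectivization.mk_eq_mk_iff']
  refine ⟨c * c'⁻¹, ?_⟩
  rw [mul_smul, ← h5, smul_smul, mul_inv_cancel₀ hc, one_smul]

open Polynomial in
lemma AA_ker {P : ℙ K V} (l : Module.Dual K V) (hl : l P.rep = 1) (X : Finset (ℙ K V))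
    (d k : ℕ) (hk : k ≤ d) (g : (V ⧸ P.submodule) → K) (hg : g ∈ Sd K (V ⧸ P.submodule) (d - k))
    (hA : TT P.submodule.mkQ l X k g ∈ AA P.submodule.mkQ l X d k) :
    resP K (V ⧸ P.submodule) (lay P X k) g = 0 := by
  classical
  funext y
  show g y.1.rep = 0
  obtain ⟨r, hr, hr2⟩ := AA_poly P.submodule.mkQ l X d k (by omega) y.1.rep _ hA
  have hcard := mem_lay.1 y.2
  set S := X.filter (fun x => Over P x y.1) with hS
  have hc : ∀ x : ℙ K V, ∃ c : K, x ∈ S → c ≠ 0 ∧ P.submodule.mkQ x.rep = c • y.1.rep := by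
    intro x
    by_cases hx : x ∈ S
    · obtain ⟨c, hc⟩ := over_coord (Finset.mem_filter.1 hx).2
      exact ⟨c, fun _ => hc⟩
    · exact ⟨0, fun h => absurd h hx⟩
  choose c hc using hc
  have hinj : Set.InjOn (fun x : ℙ K V => l x.rep / c x) (S : Set (ℙ K V)) := by
    intro x hx x' hx' hxx
    have hx1 := hc x (by exact_mod_cast hx)
    have hx2 := hc x' (by exact_mod_cast hx')
    exact same_slope hl hx1.1 hx2.1 hx1.2 hx2.2 hxx
  have hq : r - C (g y.1.rep) * Polynomial.X ^ k = 0 := by
    apply Polynomial.eq_zero_of_degree_lt_of_eval_index_eq_zero (s := S)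
      (v := fun x : ℙ K V => l x.rep / c x) hinj
    · refine lt_of_le_of_lt (degree_sub_le _ _) (max_lt ?_ ?_)
      · refine lt_trans hr ?_
        exact_mod_cast hcard
      · refine lt_of_le_of_lt (degree_C_mul_X_pow_le _ _) ?_
        exact_mod_cast hcard
    · intro x hx
      have hx1 := hc x hx
      have h1 := hr2 ⟨x, (Finset.mem_filter.1 hx).1⟩ (c x) hx1.1 hx1.2
      have e1 : TT P.submodule.mkQ l X k g ⟨x, (Finset.mem_filter.1 hx).1⟩ =
        l x.rep ^ k * g (P.submodule.mkQ x.rep) := rfl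
      rw [e1, hx1.2, Sd_homog hg] at h1
      simp only [eval_sub, eval_mul, eval_C, eval_pow, eval_X]
      have e2 : c x ^ d = c x ^ k * c x ^ (d - k) := by
        rw [← pow_add]
        congr 1
        omega
      rw [e2] at h1
      have h3 : c x ^ k ≠ 0 := pow_ne_zero _ hx1.1
      have h4 : c x ^ (d - k) ≠ 0 := pow_ne_zero _ hx1.1
      simp only at h1
      have h5 : c x ^ k * c x ^ (d - k) * (eval (l x.rep / c x) r -
          g y.1.rep * (l x.rep / c x) ^ k) = 0 := by
        rw [mul_sub, ← h1, div_pow]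
        field_simp
        ring
      rcases mul_eq_zero.1 h5 with h6 | h6
      · exact absurd h6 (mul_ne_zero h3 h4)
      · exact h6
  have h1 := congrArg (fun q => q.coeff k) hq
  simp only [coeff_sub, coeff_C_mul, coeff_X_pow, if_true, mul_one, coeff_zero] at h1
  rw [coeff_eq_zero_of_degree_lt hr] at h1
  simpa using h1

lemma exists_l (P : ℙ K V) : ∃ l : Module.Dual K V, l P.rep = 1 := by
  have h : ¬ ∀ φ : Module.Dual K V, φ P.rep = 0 := by
    rw [Module.forall_dual_apply_eq_zero_iff]
    exact P.rep_nonzero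
  push Not at h
  obtain ⟨φ, hφ⟩ := h
  exact ⟨(φ P.rep)⁻¹ • φ, by simp [hφ]⟩

lemma AA_dim [Finite V] {P : ℙ K V} (l : Module.Dual K V) (hl : l P.rep = 1)
    (X : Finset (ℙ K V)) (d k : ℕ) (hk : k ≤ d + 1) :
    ∑ i ∈ range k, hh K (V ⧸ P.submodule) (d - i) (lay P X i) ≤
      Module.finrank K (AA P.submodule.mkQ l X d k) := by
  have hfW : Finite (V ⧸ P.submodule) := Quotient.finite _
  induction k with
  | zero => simp
  | succ k ih =>
    rw [Finset.sum_range_succ]
    have h1 := ih (by omega)
    have h2 := dimstep (Sd K (V ⧸ P.submodule) (d - k)) (TT P.submodule.mkQ l X k)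
      (resP K (V ⧸ P.submodule) (lay P X k)) (AA P.submodule.mkQ l X d k)
      (fun g hg hA => AA_ker l hl X d k (by omega) g hg hA)
    have h3 : AA P.submodule.mkQ l X d (k + 1) = AA P.submodule.mkQ l X d k ⊔
      (Sd K (V ⧸ P.submodule) (d - k)).map (TT P.submodule.mkQ l X k) := rfl
    rw [h3]
    unfold hh at *
    omega

theorem pt : PT := by
  intro K _ _ V _ _ _ X P d
  obtain ⟨l, hl⟩ := exists_l P
  have hA := Submodule.finrank_mono (AA_le P.submodule.mkQ l X d (d + 1) le_rfl)
  constructor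
  · intro _
    exact (AA_dim l hl X d (d + 1) le_rfl).trans hA
  · intro hP
    refine le_trans ?_ hA
    have h1 := AA_dim l hl X d d (by omega)
    have h2 : AA P.submodule.mkQ l X d d < AA P.submodule.mkQ l X d (d + 1) := by
      refine lt_of_le_of_ne le_sup_left ?_
      intro heq
      have hp0 : P.submodule.mkQ P.rep = 0 := by
        have h3 : P.rep ∈ LinearMap.ker P.submodule.mkQ := by
          rw [Submodule.ker_mkQ, Projectivization.submodule_eq]
          exact Submodule.mem_span_singleton_self _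
        exact h3
      have hz : ∀ k ≤ d, ∀ h ∈ AA P.submodule.mkQ l X d k, h ⟨P, hP⟩ = 0 := by
        intro k
        induction k with
        | zero =>
          intro _ h hh
          have h0 : h = 0 := by simpa [AA] using hh
          rw [h0]
          rfl
        | succ k ih =>
          intro hk h hh
          obtain ⟨h1, hh1, _, ⟨g, hg, rfl⟩, rfl⟩ := Submodule.mem_sup.1 hh
          rw [Pi.add_apply, ih (by omega) h1 hh1, zero_add]
          have e1 : TT P.submodule.mkQ l X k g ⟨P, hP⟩ =
            l P.rep ^ k * g (P.submodule.mkQ P.rep) := rfl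
          have e2 := Sd_homog hg 0 0
          rw [zero_smul, zero_pow (by omega), zero_mul] at e2
          rw [e1, hp0, e2, mul_zero]
      have h4 : TT P.submodule.mkQ l X d (fun _ => 1) ∈ AA P.submodule.mkQ l X d (d + 1) := by
        refine Submodule.mem_sup_right ⟨_, ?_, rfl⟩
        rw [Nat.sub_self]
        apply Submodule.subset_span
        exact ⟨fun i => i.elim0, by simp⟩
      rw [← heq] at h4
      have h5 := hz d le_rfl _ h4
      have e1 : TT P.submodule.mkQ l X d (fun _ => 1) ⟨P, hP⟩ = l P.rep ^ d * 1 := rfl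
      rw [e1, hl] at h5
      simp at h5
    have h3 := Submodule.finrank_lt_finrank_of_lt h2
    omega

end Geo

end Pool.Agent.W376.ER
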